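import Mathlib

/-!
# MP_061dbe_an: the dual of `S` contains no `Σ`-neighbourhood

For `0 < η ≤ 1` and `c = 2 - η² + iη` the function `h(z) = (((1+z)/(1-z))^c - 1)/(2c)` is univalent. On the
positive radius it is of size comparable with the Koebe function for a long range of scales, and its
argument turns at the rate `η`. With `r_j = (X_j - 1)/(X_j + 1)`, `X_j = exp((j+1)π/η)`, `δ_j = 1 - r_j`,
the kernel `k(z) = ∑_{j < 2N} (-1)^j δ_j² (z/(1 - r_j z) - z)` has `|k'|` and `|k/z|` bounded by absolute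
constants, while `(k * h)(t)`, for `t` close to `1` and `η = 1/N`, is at least a constant times `N`.
-/

set_option autoImplicit false

namespace Pool.Agent.Results.MP_061dbe_an.NoSigmaNeighbourhood

open Complex Metric Set Filter Topology

/-- The class `A`: the analytic functions `f(z) = z + ∑_{k ≥ 2} a_k z^k` on the unit disc, given by their
coefficients. -/
structure ClassA where
  coeff : ℕ → ℂ
  coeff_zero : coeff 0 = 0
  coeff_one : coeff 1 = 1
  summable : ∀ z : ℂ, ‖z‖ < 1 → Summable fun n => coeff n * z ^ n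

/-- The value `f(z) = ∑ a_k z^k`. -/
noncomputable def ClassA.eval (f : ClassA) (z : ℂ) : ℂ := ∑' n, f.coeff n * z ^ n

/-- The class `S` of the univalent members of `A`. -/
def classS : Set ClassA := {f | InjOn f.eval (ball 0 1)}

/-- The Hadamard product `(f * g)(z) = ∑ a_k b_k z^k`. -/
noncomputable def hadamard (f g : ClassA) (z : ℂ) : ℂ := ∑' n, f.coeff n * g.coeff n * z ^ n

/-- The dual of a family of functions. -/
def dual (F : Set ClassA) : Set ClassA :=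
  {f | ∀ g ∈ F, ∀ z : ℂ, 0 < ‖z‖ → ‖z‖ < 1 → hadamard f g z ≠ 0}

/-- The neighbourhood `Σ_δ(f)`. (`(g - f)/z` has the value `0` at `z = 0`, which is also the value of
Lean's division by `0`.) -/
def sigmaNbhd (δ : ℝ) (f : ClassA) : Set ClassA :=
  {g | ∀ z : ℂ, ‖z‖ < 1 →
    ‖(deriv g.eval z - deriv f.eval z) - (g.eval z - f.eval z) / z‖ +
      ‖(deriv g.eval z - deriv f.eval z) + (g.eval z - f.eval z) / z‖ < 2 * δ}

/-! ### Power series on the unit disc -/

/-- convergence in the unit disc -/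
def Conv (c : ℕ → ℂ) : Prop := ∀ z : ℂ, ‖z‖ < 1 → Summable fun n => c n * z ^ n

lemma Conv.norm {c : ℕ → ℂ} (hc : Conv c) {R : ℝ} (h0 : 0 ≤ R) (h1 : R < 1) :
    Summable fun n => ‖c n‖ * R ^ n := by
  have := (hc (R : ℂ) (by rwa [Complex.norm_real, Real.norm_of_nonneg h0])).norm
  refine this.congr fun n => ?_
  rw [norm_mul, norm_pow, Complex.norm_real, Real.norm_of_nonneg h0]

lemma Conv.shift {c : ℕ → ℂ} (hc : Conv c) : Conv fun n => c (n + 1) := by
  intro u hu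
  by_cases h : u = 0
  · refine summable_of_ne_finset_zero (s := {0}) fun n hn => ?_
    rw [Finset.mem_singleton] at hn
    rw [h, zero_pow hn, mul_zero]
  · have h1 := ((summable_nat_add_iff 1).2 (hc u hu)).mul_left u⁻¹
    refine h1.congr fun n => ?_
    rw [pow_succ]
    field_simp

lemma Conv.mul {c d : ℕ → ℂ} (hc : Conv c) (hd : Conv d) : Conv fun n => c n * d n := by
  intro z hz
  set R := Real.sqrt ‖z‖ with hR
  have h0 : 0 ≤ R := Real.sqrt_nonneg _
  have h1 : R < 1 := by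
    rw [hR, Real.sqrt_lt' one_pos]; simpa using hz
  have h2 : R ^ 2 = ‖z‖ := Real.sq_sqrt (norm_nonneg z)
  have h3 := (hc.norm h0 h1).mul_of_nonneg (hd.norm h0 h1) (fun n => by positivity)
    (fun n => by positivity)
  have h4 : Summable fun n : ℕ => ‖c n‖ * R ^ n * (‖d n‖ * R ^ n) :=
    h3.comp_injective (i := fun n : ℕ => (n, n)) fun a b hab => (Prod.ext_iff.1 hab).1
  refine Summable.of_norm (h4.congr fun n => ?_)
  rw [norm_mul, norm_mul, norm_pow, ← h2]
  ring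

lemma Conv.diff {c : ℕ → ℂ} (hc : Conv c) {z : ℂ} (hz : ‖z‖ < 1) :
    DifferentiableAt ℂ (fun z => ∑' n, c n * z ^ n) z := by
  obtain ⟨R, hR1, hR2⟩ := exists_between hz
  have h0 : 0 ≤ R := (norm_nonneg z).trans hR1.le
  have h := differentiableOn_tsum_of_summable_norm (hc.norm h0 hR2)
    (F := fun n (z : ℂ) => c n * z ^ n) (U := ball 0 R)
    (fun n => ((differentiable_id.pow n).const_mul (c n)).differentiableOn) isOpen_ball
    (fun n w hw => by
      rw [norm_mul, norm_pow]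
      have : ‖w‖ < R := by simpa using hw
      gcongr)
  exact h.differentiableAt (isOpen_ball.mem_nhds (by simpa using hR1))

/-- The function `z ∑ c_n z^n` -/
noncomputable def ofShift (c : ℕ → ℂ) (h0 : c 0 = 1) (hs : Conv c) : ClassA where
  coeff n := Nat.casesOn n 0 c
  coeff_zero := rfl
  coeff_one := h0
  summable z hz := by
    rw [← summable_nat_add_iff 1]
    have := (hs z hz).mul_left z
    refine this.congr fun n => ?_
    show z * (c n * z ^ n) = c n * z ^ (n + 1)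
    ring

/-- `H(u) = f(u)/u` -/
noncomputable def H (f : ClassA) (u : ℂ) : ℂ := ∑' n, f.coeff (n + 1) * u ^ n

lemma hasSum_H (f : ClassA) {u : ℂ} (hu : ‖u‖ < 1) :
    HasSum (fun n => f.coeff (n + 1) * u ^ n) (H f u) :=
  (Conv.shift f.summable u hu).hasSum

lemma hasSum_eval (f : ClassA) {u : ℂ} (hu : ‖u‖ < 1) :
    HasSum (fun n => f.coeff n * u ^ n) (f.eval u) := (f.summable u hu).hasSum

lemma mul_H (f : ClassA) {u : ℂ} (hu : ‖u‖ < 1) : u * H f u = f.eval u := by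
  have h1 := (hasSum_H f hu).mul_left u
  have h2 := (hasSum_nat_add_iff' 1).2 (hasSum_eval f hu)
  rw [Finset.sum_range_one, f.coeff_zero, zero_mul, sub_zero] at h2
  refine h1.unique ?_
  refine h2.congr_fun ?_
  intro n
  ring

lemma eval_diff (f : ClassA) {z : ℂ} (hz : ‖z‖ < 1) : DifferentiableAt ℂ f.eval z :=
  Conv.diff f.summable hz

lemma eval_ofShift (c : ℕ → ℂ) (h0 : c 0 = 1) (hs : Conv c) {z s : ℂ} (hz : ‖z‖ < 1)
    (h : HasSum (fun n => c n * z ^ n) s) : (ofShift c h0 hs).eval z = z * s := by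
  rw [← mul_H _ hz]
  congr 1
  exact h.tsum_eq

/-- `Ψ(z) = (f * g)(z)/z` -/
noncomputable def Ψ (f g : ClassA) (z : ℂ) : ℂ := ∑' n, f.coeff (n + 1) * g.coeff (n + 1) * z ^ n

lemma hasSum_Ψ (f g : ClassA) {u : ℂ} (hu : ‖u‖ < 1) :
    HasSum (fun n => f.coeff (n + 1) * g.coeff (n + 1) * u ^ n) (Ψ f g u) :=
  ((Conv.shift f.summable).mul (Conv.shift g.summable) u hu).hasSum

lemma Ψ_diff (f g : ClassA) {z : ℂ} (hz : ‖z‖ < 1) : DifferentiableAt ℂ (Ψ f g) z :=
  ((Conv.shift f.summable).mul (Conv.shift g.summable)).diff hz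

lemma Ψ_zero (f g : ClassA) : Ψ f g 0 = 1 := by
  unfold Ψ
  rw [tsum_eq_single 0]
  · rw [pow_zero, mul_one, zero_add, f.coeff_one, g.coeff_one, one_mul]
  · intro n hn
    rw [zero_pow hn, mul_zero]

lemma hadamard_eq (f g : ClassA) (z s : ℂ)
    (h : HasSum (fun n => f.coeff (n + 1) * g.coeff (n + 1) * z ^ n) s) :
    hadamard f g z = z * s := by
  unfold hadamard
  refine HasSum.tsum_eq ?_
  rw [← hasSum_nat_add_iff' 1, Finset.sum_range_one, f.coeff_zero, zero_mul, zero_mul, sub_zero]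
  have := h.mul_left z
  refine this.congr_fun ?_
  intro n
  ring

/-- The minimum principle: a nonvanishing function with `Ψ(0) = 1` is of modulus at most `1` at some point
of each circle. -/
lemma min_principle {ψ : ℂ → ℂ} (hd : ∀ z : ℂ, ‖z‖ < 1 → DifferentiableAt ℂ ψ z)
    (h0 : ψ 0 = 1) (hne : ∀ z : ℂ, ‖z‖ < 1 → ψ z ≠ 0) {t : ℝ} (ht0 : 0 < t) (ht1 : t < 1) :
    ∃ z : ℂ, ‖z‖ = t ∧ ‖ψ z‖ ≤ 1 := by
  by_contra hcon
  push Not at hcon
  have hcomp : IsCompact (sphere (0 : ℂ) t) := isCompact_sphere 0 t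
  have hne' : (sphere (0 : ℂ) t).Nonempty := NormedSpace.sphere_nonempty.2 ht0.le
  have hcont : ContinuousOn (fun z => ‖(ψ z)⁻¹‖) (sphere (0 : ℂ) t) := by
    intro z hz
    have hz' : ‖z‖ < 1 := by rw [mem_sphere_zero_iff_norm] at hz; linarith
    exact ((hd z hz').continuousAt.inv₀ (hne z hz')).norm.continuousWithinAt
  obtain ⟨w, hw, hmax⟩ := hcomp.exists_isMaxOn hne' hcont
  have hw' : ‖w‖ = t := by simpa using hw
  have hC : ‖(ψ w)⁻¹‖ < 1 := by
    rw [norm_inv]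
    exact inv_lt_one_of_one_lt₀ (hcon w hw')
  have hdiff : DiffContOnCl ℂ (fun z => (ψ z)⁻¹) (ball 0 t) := by
    refine DifferentiableOn.diffContOnCl ?_
    rw [closure_ball 0 ht0.ne']
    intro z hz
    have hz' : ‖z‖ < 1 := by
      have : ‖z‖ ≤ t := by simpa using hz
      linarith
    exact ((hd z hz').inv (hne z hz')).differentiableWithinAt
  have := Complex.norm_le_of_forall_mem_frontier_norm_le (isBounded_ball (x := (0 : ℂ)) (r := t)) hdiff
    (C := ‖(ψ w)⁻¹‖) (fun z hz => by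
      rw [frontier_ball 0 ht0.ne'] at hz
      exact hmax hz) (subset_closure (mem_ball_self ht0))
  simp only [h0, inv_one, norm_one] at this
  linarith

/-- the member of the class `A` given by an analytic function -/
noncomputable def ofAnalytic (F : ℂ → ℂ) (hF : DifferentiableOn ℂ F (ball 0 1)) (h0 : F 0 = 0)
    (h1 : deriv F 0 = 1) : ClassA where
  coeff n := ((n.factorial : ℂ))⁻¹ * iteratedDeriv n F 0
  coeff_zero := by rw [iteratedDeriv_zero, h0, mul_zero]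
  coeff_one := by rw [iteratedDeriv_one, h1]; simp
  summable z hz := by
    have := (hasSum_taylorSeries_on_ball hF (z := z) (by simpa using hz)).summable
    refine this.congr fun n => ?_
    rw [smul_eq_mul, smul_eq_mul, sub_zero]
    ring

lemma eval_ofAnalytic (F : ℂ → ℂ) (hF : DifferentiableOn ℂ F (ball 0 1)) (h0 : F 0 = 0)
    (h1 : deriv F 0 = 1) {z : ℂ} (hz : ‖z‖ < 1) : (ofAnalytic F hF h0 h1).eval z = F z := by
  have := (hasSum_taylorSeries_on_ball hF (z := z) (by simpa using hz)).tsum_eq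
  rw [← this]
  unfold ClassA.eval
  refine tsum_congr fun n => ?_
  rw [smul_eq_mul, smul_eq_mul, sub_zero]
  show ((n.factorial : ℂ))⁻¹ * iteratedDeriv n F 0 * z ^ n = _
  ring

/-! ### The univalent function -/

/-- `c = 2 - η² + iη` -/
noncomputable def c (η : ℝ) : ℂ := ⟨2 - η ^ 2, η⟩

lemma c_re (η : ℝ) : (c η).re = 2 - η ^ 2 := rfl
lemma c_im (η : ℝ) : (c η).im = η := rfl

variable {η : ℝ}

lemma c_ne (h0 : 0 < η) : c η ≠ 0 := by
  intro h
  have := congrArg Complex.im h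
  rw [c_im] at this
  simp at this
  exact h0.ne' this

lemma norm_c (h0 : 0 < η) (h1 : η ≤ 1) : ‖c η‖ ≤ 2 := by
  have h2 : ‖c η‖ ^ 2 ≤ 4 := by
    rw [← Complex.normSq_eq_norm_sq, Complex.normSq_apply, c_re, c_im]
    nlinarith [sq_nonneg η, mul_pos h0 h0, mul_le_mul h1 h1 h0.le zero_le_one]
  have h0 := norm_nonneg (c η)
  nlinarith

/-- `F(z) = (((1+z)/(1-z))^c - 1)/(2c)` -/
noncomputable def F (η : ℝ) (z : ℂ) : ℂ := (((1 + z) / (1 - z)) ^ (c η) - 1) / (2 * c η)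

lemma one_sub_ne {z : ℂ} (hz : ‖z‖ < 1) : 1 - z ≠ 0 := by
  intro h
  have : z = 1 := by linear_combination -h
  rw [this, norm_one] at hz
  exact lt_irrefl _ hz

lemma re_pos {z : ℂ} (hz : ‖z‖ < 1) : 0 < ((1 + z) / (1 - z)).re := by
  have h1 := one_sub_ne hz
  have h2 : 0 < Complex.normSq (1 - z) := Complex.normSq_pos.2 h1
  have h3 : Complex.normSq z < 1 := by
    rw [Complex.normSq_eq_norm_sq]
    have := norm_nonneg z
    nlinarith
  rw [Complex.div_re, ← add_div]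
  refine div_pos ?_ h2
  simp only [add_re, one_re, sub_re, add_im, one_im, sub_im, zero_add, zero_sub]
  rw [Complex.normSq_apply] at h3
  nlinarith

lemma F_hasDerivAt (η : ℝ) {z : ℂ} (hz : ‖z‖ < 1) :
    HasDerivAt (F η) ((c η * ((1 + z) / (1 - z)) ^ (c η - 1) *
      ((1 * (1 - z) - (1 + z) * (-1)) / (1 - z) ^ 2)) / (2 * c η)) z := by
  have h1 : HasDerivAt (fun z : ℂ => (1 + z) / (1 - z))
      ((1 * (1 - z) - (1 + z) * (-1)) / (1 - z) ^ 2) z :=
    ((hasDerivAt_id z).const_add 1).div ((hasDerivAt_id z).const_sub 1) (one_sub_ne hz)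
  have h2 := (h1.cpow_const (c := c η) (Complex.mem_slitPlane_iff.2 (Or.inl (re_pos hz))))
  exact (h2.sub_const 1).div_const (2 * c η)

lemma F_diff (η : ℝ) : DifferentiableOn ℂ (F η) (ball 0 1) := by
  intro z hz
  exact (F_hasDerivAt η (by simpa using hz)).differentiableAt.differentiableWithinAt

lemma F_zero (η : ℝ) : F η 0 = 0 := by
  unfold F
  simp

lemma F_deriv_zero (h0 : 0 < η) : deriv (F η) 0 = 1 := by
  rw [(F_hasDerivAt η (z := 0) (by simp)).deriv]
  have := c_ne h0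
  simp
  field_simp
  norm_num

/-- The function `h ∈ S`. -/
noncomputable def h (h0 : 0 < η) : ClassA := ofAnalytic (F η) (F_diff η) (F_zero η) (F_deriv_zero h0)

lemma h_eval (h0 : 0 < η) {z : ℂ} (hz : ‖z‖ < 1) : (h h0).eval z = F η z := eval_ofAnalytic (F η) _ _ _ hz

lemma F_inj (h0 : 0 < η) (h1 : η ≤ 1) : InjOn (F η) (ball 0 1) := by
  intro z hz w hw hzw
  have hz' : ‖z‖ < 1 := by simpa using hz
  have hw' : ‖w‖ < 1 := by simpa using hw
  set s := (1 + z) / (1 - z) with hs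
  set t := (1 + w) / (1 - w) with ht
  have hs0 : 0 < s.re := re_pos hz'
  have ht0 : 0 < t.re := re_pos hw'
  have hs1 : s ≠ 0 := by intro h; rw [h] at hs0; simp at hs0
  have ht1 : t ≠ 0 := by intro h; rw [h] at ht0; simp at ht0
  have hc := c_ne h0
  have h1 : s ^ (c η) = t ^ (c η) := by
    unfold F at hzw
    rw [div_left_inj' (by simpa using hc)] at hzw
    linear_combination hzw
  rw [Complex.cpow_def_of_ne_zero hs1, Complex.cpow_def_of_ne_zero ht1,
    Complex.exp_eq_exp_iff_exists_int] at h1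
  obtain ⟨n, hn⟩ := h1
  have hb1 : |(log s).im| < Real.pi / 2 := by
    rw [Complex.log_im]; exact Complex.abs_arg_lt_pi_div_two_iff.2 (Or.inl hs0)
  have hb2 : |(log t).im| < Real.pi / 2 := by
    rw [Complex.log_im]; exact Complex.abs_arg_lt_pi_div_two_iff.2 (Or.inl ht0)
  set D := log s - log t with hD
  have h2 : D * c η = n * (2 * Real.pi * I) := by rw [hD]; linear_combination hn
  have hDim : |D.im| < Real.pi := by
    rw [hD, sub_im]
    rw [abs_lt] at hb1 hb2 ⊢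
    constructor <;> linarith
  have hre := congrArg Complex.re h2
  have him := congrArg Complex.im h2
  simp only [mul_re, mul_im, I_re, I_im, ofReal_re, ofReal_im, intCast_re, intCast_im, re_ofNat,
    im_ofNat, c_re, c_im] at hre him
  have hpi := Real.pi_pos
  -- `D.im * |c|^2 = 2 π n re c`
  have key : D.im * ((2 - η ^ 2) ^ 2 + η ^ 2) = (2 - η ^ 2) * (2 * Real.pi * n) := by
    linear_combination (2 - η ^ 2) * him - η * hre
  have hη2 : η ^ 2 ≤ 1 := by nlinarith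
  have hη3 : 0 < η ^ 2 := by positivity
  have hn0 : n = 0 := by
    by_contra hne
    have h3 : (1 : ℝ) ≤ |(n : ℝ)| := by
      rw [← Int.cast_abs]
      exact_mod_cast Int.one_le_abs hne
    have h4 := congrArg abs key
    rw [abs_mul, abs_mul, abs_mul, abs_mul, abs_of_pos hpi] at h4
    rw [abs_of_pos (show (0 : ℝ) < (2 - η ^ 2) ^ 2 + η ^ 2 by positivity),
      abs_of_pos (show (0 : ℝ) < 2 - η ^ 2 by linarith), abs_of_pos (show (0 : ℝ) < 2 by norm_num)] at h4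
    have h5 : (2 - η ^ 2) ^ 2 + η ^ 2 ≤ 2 * (2 - η ^ 2) := by nlinarith
    have h6 := abs_nonneg D.im
    have h7 : |D.im| * ((2 - η ^ 2) ^ 2 + η ^ 2) < Real.pi * (2 * (2 - η ^ 2)) := by
      have h8 : 0 < (2 - η ^ 2) ^ 2 + η ^ 2 := by positivity
      calc |D.im| * ((2 - η ^ 2) ^ 2 + η ^ 2) < Real.pi * ((2 - η ^ 2) ^ 2 + η ^ 2) := by gcongr
        _ ≤ Real.pi * (2 * (2 - η ^ 2)) := by gcongr
    have h9 : (2 - η ^ 2) * (2 * Real.pi) * 1 ≤ (2 - η ^ 2) * (2 * Real.pi) * |(n : ℝ)| := by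
      have : 0 ≤ (2 - η ^ 2) * (2 * Real.pi) := mul_nonneg (by linarith) (by positivity)
      gcongr
    linarith
  rw [hn0] at h2
  have h7 : D = 0 := by
    have : D * c η = 0 := by rw [h2]; simp
    exact (mul_eq_zero.1 this).resolve_right hc
  have h8 : s = t := by
    rw [← Complex.exp_log hs1, ← Complex.exp_log ht1]
    congr 1
    linear_combination h7
  rw [hs, ht, div_eq_div_iff (one_sub_ne hz') (one_sub_ne hw')] at h8
  linear_combination h8 / 2

lemma h_mem (h0 : 0 < η) (h1 : η ≤ 1) : h h0 ∈ classS := by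
  intro z hz w hw hzw
  rw [h_eval h0 (by simpa using hz), h_eval h0 (by simpa using hw)] at hzw
  exact F_inj h0 h1 hz hw hzw

lemma H_h (h0 : 0 < η) {u : ℂ} (hu : ‖u‖ < 1) (hu0 : u ≠ 0) : H (h h0) u = F η u / u := by
  rw [eq_div_iff hu0, mul_comm, mul_H _ hu, h_eval h0 hu]


/-! ### The points of the positive radius -/

/-- the point `r` with `(1+r)/(1-r) = exp y` -/
noncomputable def r (y : ℝ) : ℝ := (Real.exp y - 1) / (Real.exp y + 1)

/-- `1 - r` -/
noncomputable def δ (y : ℝ) : ℝ := 2 / (Real.exp y + 1)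

lemma one_sub_r (y : ℝ) : 1 - r y = δ y := by
  unfold r δ
  have := Real.exp_pos y
  field_simp
  ring

lemma δ_pos (y : ℝ) : 0 < δ y := by
  unfold δ
  have := Real.exp_pos y
  positivity

lemma r_lt (y : ℝ) : r y < 1 := by
  have := one_sub_r y
  have := δ_pos y
  linarith

lemma r_pos {y : ℝ} (hy : 0 < y) : 0 < r y := by
  unfold r
  have := Real.one_lt_exp_iff.2 hy
  exact div_pos (by linarith) (by linarith)

lemma F_r (y : ℝ) : F η (r y) = (cexp (c η * y) - 1) / (2 * c η) := by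
  have h1 : (1 + (r y : ℂ)) / (1 - (r y : ℂ)) = ((Real.exp y : ℝ) : ℂ) := by
    have h2 : (1 + r y) / (1 - r y) = Real.exp y := by
      rw [one_sub_r]
      unfold r δ
      have := Real.exp_pos y
      field_simp
      ring
    exact_mod_cast h2
  unfold F
  rw [h1, Complex.cpow_def_of_ne_zero (by exact_mod_cast (Real.exp_pos y).ne'),
    ← Complex.ofReal_log (Real.exp_pos y).le, Real.log_exp, mul_comm (y : ℂ) (c η)]

/-- `y_j = (j+1)π/η` -/
noncomputable def y (η : ℝ) (j : ℕ) : ℝ := (j + 1) * Real.pi / η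

lemma y_ge (h0 : 0 < η) (h1 : η ≤ 1) (j : ℕ) : 3 * ((j + 1 : ℕ) : ℝ) ≤ y η j := by
  unfold y
  rw [le_div_iff₀ h0]
  have h2 := Real.pi_gt_three
  have h3 : (0 : ℝ) < ((j + 1 : ℕ) : ℝ) := by positivity
  push_cast at h3 ⊢
  nlinarith [mul_pos h3 h0, mul_le_mul_of_nonneg_left h1 h3.le]

lemma y_pos (h0 : 0 < η) (j : ℕ) : 0 < y η j := by
  unfold y
  have := Real.pi_pos
  positivity

lemma δ_le (h0 : 0 < η) (h1 : η ≤ 1) (j : ℕ) : δ (y η j) ≤ (1 / 2) ^ (j + 1) := by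
  have h2 : (4 : ℝ) ^ (j + 1) ≤ Real.exp (y η j) := by
    have h3 : (4 : ℝ) ≤ Real.exp 3 := by
      have := Real.add_one_le_exp (3 : ℝ)
      linarith
    calc (4 : ℝ) ^ (j + 1) ≤ Real.exp 3 ^ (j + 1) := by gcongr
      _ = Real.exp (3 * ((j + 1 : ℕ) : ℝ)) := by rw [← Real.exp_nat_mul, mul_comm]
      _ ≤ _ := Real.exp_le_exp.2 (y_ge h0 h1 j)
  have h4 : (1 : ℝ) ≤ (2 : ℝ) ^ j := one_le_pow₀ (by norm_num)
  unfold δ
  rw [div_le_iff₀ (by have := Real.exp_pos (y η j); linarith)]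
  have h5 : (1 / 2 : ℝ) ^ (j + 1) * 4 ^ (j + 1) = 2 ^ (j + 1) := by
    rw [← mul_pow]; norm_num
  have h6 : (0 : ℝ) < (1 / 2) ^ (j + 1) := by positivity
  calc (2 : ℝ) ≤ 2 ^ (j + 1) := by rw [pow_succ]; linarith
    _ = (1 / 2 : ℝ) ^ (j + 1) * 4 ^ (j + 1) := h5.symm
    _ ≤ (1 / 2 : ℝ) ^ (j + 1) * (Real.exp (y η j) + 1) := by gcongr; linarith

lemma sum_δ_le (h0 : 0 < η) (h1 : η ≤ 1) (n : ℕ) : ∑ j ∈ Finset.range n, δ (y η j) ≤ 1 := by
  have h2 : ∀ n : ℕ, ∑ j ∈ Finset.range n, (1 / 2 : ℝ) ^ (j + 1) = 1 - (1 / 2) ^ n := by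
    intro n
    induction n with
    | zero => simp
    | succ n ih => rw [Finset.sum_range_succ, ih]; ring
  calc _ ≤ ∑ j ∈ Finset.range n, (1 / 2 : ℝ) ^ (j + 1) := Finset.sum_le_sum fun j _ => δ_le h0 h1 j
    _ = 1 - (1 / 2) ^ n := h2 n
    _ ≤ 1 := by have : (0 : ℝ) < (1 / 2) ^ n := by positivity
                linarith

lemma δ_half (h0 : 0 < η) (h1 : η ≤ 1) (j : ℕ) : δ (y η j) ≤ 1 / 2 := by
  refine (δ_le h0 h1 j).trans ?_
  rw [pow_succ]
  have : (1 / 2 : ℝ) ^ j ≤ 1 := pow_le_one₀ (by norm_num) (by norm_num)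
  linarith

lemma sum_δ_sq_le (h0 : 0 < η) (h1 : η ≤ 1) (n : ℕ) :
    ∑ j ∈ Finset.range n, δ (y η j) ^ 2 ≤ 1 := by
  refine le_trans (Finset.sum_le_sum fun j _ => ?_) (sum_δ_le h0 h1 n)
  have := δ_half h0 h1 j
  have := δ_pos (y η j)
  nlinarith

/-- the weights `(-1)^j δ_j²` -/
noncomputable def wt (η : ℝ) (j : ℕ) : ℂ := (-1) ^ j * (δ (y η j) : ℂ) ^ 2

lemma norm_wt (j : ℕ) : ‖wt η j‖ = δ (y η j) ^ 2 := by
  unfold wt
  rw [norm_mul, norm_pow, norm_pow, norm_neg, norm_one, one_pow, one_mul, Complex.norm_real,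
    Real.norm_of_nonneg (δ_pos _).le]

lemma exp_c (h0 : 0 < η) (j : ℕ) :
    cexp (c η * y η j) = -((-1) ^ j * (Real.exp ((2 - η ^ 2) * y η j) : ℝ)) := by
  have h1 : -((-1) ^ j * ((Real.exp ((2 - η ^ 2) * y η j) : ℝ) : ℂ)) =
      cexp (((2 - η ^ 2) * y η j : ℝ) : ℂ) * cexp (Real.pi * I) ^ (j + 1) := by
    rw [Complex.ofReal_exp, Complex.exp_pi_mul_I]; ring
  rw [h1, ← Complex.exp_nat_mul, ← Complex.exp_add]
  congr 1
  have h2 : η * y η j = (j + 1) * Real.pi := by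
    unfold y
    field_simp
  apply Complex.ext
  · simp only [mul_re, c_re, c_im, ofReal_re, ofReal_im, add_re, natCast_re, natCast_im, I_re, I_im,
      mul_im]
    ring
  · simp only [mul_re, c_re, c_im, ofReal_re, ofReal_im, add_im, natCast_re, natCast_im, I_re, I_im,
      mul_im]
    push_cast
    linear_combination h2

/-- the value of the functional at `t = 1` -/
lemma L_one (h0 : 0 < η) (h1 : η ≤ 1) {N : ℕ} (hN : η * N ≤ 1) :
    2 * N * Real.exp (-(2 * Real.pi)) - 6 ≤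
      4 * ‖∑ j ∈ Finset.range (2 * N), wt η j * (F η (r (y η j)) / r (y η j) - 1)‖ := by
  have hc := c_ne h0
  have hcn := norm_c h0 h1
  have hpi := Real.pi_pos
  set L : ℂ := ∑ j ∈ Finset.range (2 * N), wt η j * (F η (r (y η j)) / r (y η j) - 1) with hL
  set M : ℝ := ∑ j ∈ Finset.range (2 * N),
    δ (y η j) ^ 2 * Real.exp ((2 - η ^ 2) * y η j) / r (y η j) with hM
  set R : ℂ := ∑ j ∈ Finset.range (2 * N), (wt η j / r (y η j) + 2 * c η * wt η j) with hR
  have hr : ∀ j, 1 / 2 ≤ r (y η j) := by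
    intro j
    have := one_sub_r (y η j)
    have := δ_half h0 h1 j
    linarith
  have e1 : 2 * c η * L = -((M : ℂ) + R) := by
    rw [hL, hM, hR]
    push_cast
    rw [← Finset.sum_add_distrib, Finset.mul_sum, ← Finset.sum_neg_distrib]
    refine Finset.sum_congr rfl fun j _ => ?_
    have hrj : ((r (y η j) : ℝ) : ℂ) ≠ 0 := by
      have := hr j
      exact_mod_cast (by linarith : (0 : ℝ) < r (y η j)).ne'
    rw [F_r, exp_c h0]
    have hs : ((-1 : ℂ) ^ j) * (-1) ^ j = 1 := by rw [← mul_pow]; simp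
    unfold wt
    push_cast
    field_simp
    linear_combination (-(δ (y η j) : ℂ) ^ 2 * cexp ((2 - (η : ℂ) ^ 2) * (y η j : ℂ))) * hs
  have e2 : 2 * N * Real.exp (-(2 * Real.pi)) ≤ M := by
    have h3 : ∀ j ∈ Finset.range (2 * N), Real.exp (-(2 * Real.pi)) ≤
        δ (y η j) ^ 2 * Real.exp ((2 - η ^ 2) * y η j) / r (y η j) := by
      intro j hj
      have hjN : ((j : ℝ) + 1) ≤ 2 * N := by
        have := Finset.mem_range.1 hj
        exact_mod_cast this
      have h4 : 1 ≤ δ (y η j) * Real.exp (y η j) := by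
        unfold δ
        have h5 := Real.one_le_exp (y_pos h0 j).le
        rw [div_mul_eq_mul_div, le_div_iff₀ (by linarith)]
        linarith
      have h6 : η ^ 2 * y η j ≤ 2 * Real.pi := by
        have h7 : η ^ 2 * y η j = η * (j + 1) * Real.pi := by
          unfold y
          field_simp
        rw [h7]
        have h8 : η * ((j : ℝ) + 1) ≤ 2 := by nlinarith
        nlinarith
      have h9 : Real.exp ((2 - η ^ 2) * y η j) =
          Real.exp (y η j) ^ 2 * Real.exp (-(η ^ 2 * y η j)) := by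
        rw [← Real.exp_nat_mul, ← Real.exp_add]
        congr 1
        push_cast
        ring
      have h10 : Real.exp (-(2 * Real.pi)) ≤ Real.exp (-(η ^ 2 * y η j)) :=
        Real.exp_le_exp.2 (by linarith)
      have hrp : 0 < r (y η j) := r_pos (y_pos h0 j)
      rw [le_div_iff₀ hrp, h9]
      have h11 : 1 ≤ (δ (y η j) * Real.exp (y η j)) ^ 2 := one_le_pow₀ h4
      have h12 := (Real.exp_pos (-(2 * Real.pi))).le
      have h13 := (r_lt (y η j)).le
      calc Real.exp (-(2 * Real.pi)) * r (y η j) ≤ Real.exp (-(2 * Real.pi)) * 1 := by gcongr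
        _ = 1 * Real.exp (-(2 * Real.pi)) := by ring
        _ ≤ (δ (y η j) * Real.exp (y η j)) ^ 2 * Real.exp (-(η ^ 2 * y η j)) := by gcongr
        _ = _ := by ring
    have h14 := Finset.card_nsmul_le_sum _ _ _ h3
    rw [Finset.card_range, nsmul_eq_mul] at h14
    push_cast at h14
    exact h14
  have e3 : ‖R‖ ≤ 6 := by
    refine (norm_sum_le _ _).trans ?_
    calc ∑ j ∈ Finset.range (2 * N), ‖wt η j / r (y η j) + 2 * c η * wt η j‖
        ≤ ∑ j ∈ Finset.range (2 * N), 6 * δ (y η j) ^ 2 := by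
          refine Finset.sum_le_sum fun j _ => ?_
          refine (norm_add_le _ _).trans ?_
          rw [norm_div, norm_mul, norm_mul, norm_wt, Complex.norm_real,
            Real.norm_of_nonneg (r_pos (y_pos h0 j)).le]
          have h7 : ‖(2 : ℂ)‖ = 2 := by simp
          rw [h7]
          have h8 : δ (y η j) ^ 2 / r (y η j) ≤ 2 * δ (y η j) ^ 2 := by
            rw [div_le_iff₀ (r_pos (y_pos h0 j))]
            have := hr j
            have h9 : 0 ≤ δ (y η j) ^ 2 := by positivity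
            nlinarith
          have h10 : 2 * ‖c η‖ * δ (y η j) ^ 2 ≤ 2 * 2 * δ (y η j) ^ 2 := by gcongr
          linarith
      _ = 6 * ∑ j ∈ Finset.range (2 * N), δ (y η j) ^ 2 := by rw [Finset.mul_sum]
      _ ≤ 6 * 1 := by have := sum_δ_sq_le h0 h1 (2 * N); gcongr
      _ = 6 := by norm_num
  have e4 : M - 6 ≤ ‖2 * c η * L‖ := by
    rw [e1, norm_neg]
    have h2 : ‖(M : ℂ)‖ - ‖R‖ ≤ ‖(M : ℂ) + R‖ := by
      have := norm_sub_norm_le (M : ℂ) (-R)
      rwa [norm_neg, sub_neg_eq_add] at this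
    rw [Complex.norm_real] at h2
    have h3 := le_abs_self M
    rw [Real.norm_eq_abs] at h2
    linarith
  rw [norm_mul, norm_mul] at e4
  have h7 : ‖(2 : ℂ)‖ = 2 := by simp
  rw [h7] at e4
  have h8 : 2 * ‖c η‖ * ‖L‖ ≤ 2 * 2 * ‖L‖ := by gcongr
  linarith

/-- the functional is large -/
lemma exists_t (K : ℝ) : ∃ (η : ℝ) (N : ℕ) (h0 : 0 < η), η ≤ 1 ∧ ∃ t : ℝ, 0 < t ∧ t < 1 ∧
    K < ‖∑ j ∈ Finset.range (2 * N), wt η j * (H (h h0) (r (y η j) * t) - 1)‖ := by
  obtain ⟨N, hN⟩ := exists_nat_gt ((4 * K + 6) / (2 * Real.exp (-(2 * Real.pi))))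
  have hN' : (4 * K + 6) / (2 * Real.exp (-(2 * Real.pi))) < ((N + 1 : ℕ) : ℝ) := by
    push_cast; linarith
  rw [div_lt_iff₀ (by positivity)] at hN'
  obtain ⟨η, hη⟩ : ∃ η : ℝ, η = 1 / ((N + 1 : ℕ) : ℝ) := ⟨_, rfl⟩
  have hη0 : 0 < η := by rw [hη]; positivity
  have hη1 : η ≤ 1 := by
    rw [hη, div_le_one (by positivity)]
    push_cast
    have : (0 : ℝ) ≤ N := Nat.cast_nonneg N
    linarith
  refine ⟨η, N + 1, hη0, hη1, ?_⟩
  have hηN : η * ((N + 1 : ℕ) : ℝ) ≤ 1 := by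
    rw [hη]
    have : ((N + 1 : ℕ) : ℝ) ≠ 0 := by positivity
    field_simp
    exact le_refl _
  have h1 := L_one hη0 hη1 hηN
  have hc : ∀ y : ℝ, 0 < y → ContinuousAt (fun t : ℝ => F η (r y * t) / (r y * t)) 1 := by
    intro y hy
    have h1 : ContinuousAt (fun t : ℝ => (r y : ℂ) * (t : ℂ)) 1 :=
      (continuous_const.mul Complex.continuous_ofReal).continuousAt
    have hr := r_pos hy
    have hr' := r_lt y
    have h2 : ContinuousAt (F η) ((r y : ℂ) * ((1 : ℝ) : ℂ)) := by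
      refine (F_hasDerivAt η ?_).continuousAt
      rw [Complex.ofReal_one, mul_one, Complex.norm_real, Real.norm_of_nonneg hr.le]
      exact hr'
    have h3 : ContinuousAt (fun t : ℝ => F η ((r y : ℂ) * (t : ℂ))) 1 :=
      ContinuousAt.comp (f := fun t : ℝ => (r y : ℂ) * (t : ℂ)) h2 h1
    refine h3.div h1 ?_
    rw [Complex.ofReal_one, mul_one]
    exact_mod_cast hr.ne'
  have h4 : ContinuousAt (fun t : ℝ => ‖∑ j ∈ Finset.range (2 * (N + 1)),
      wt η j * (F η (r (y η j) * t) / (r (y η j) * t) - 1)‖) 1 := by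
    refine ContinuousAt.norm ?_
    refine tendsto_finsetSum _ fun j _ => ?_
    exact continuousAt_const.mul ((hc (y η j) (y_pos hη0 j)).sub continuousAt_const)
  have h5 : K < ‖∑ j ∈ Finset.range (2 * (N + 1)),
      wt η j * (F η (r (y η j)) / (r (y η j)) - 1)‖ := by
    linarith
  have h6 : ∀ᶠ t : ℝ in 𝓝[<] 1, K < ‖∑ j ∈ Finset.range (2 * (N + 1)),
      wt η j * (F η (r (y η j) * t) / (r (y η j) * t) - 1)‖ := by
    refine (h4.tendsto.eventually_const_lt ?_).filter_mono nhdsWithin_le_nhds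
    simpa using h5
  have h7 : ∀ᶠ t : ℝ in 𝓝[<] 1, 0 < t :=
    (eventually_gt_nhds (by norm_num)).filter_mono nhdsWithin_le_nhds
  have h8 : ∀ᶠ t : ℝ in 𝓝[<] 1, t < 1 := self_mem_nhdsWithin
  obtain ⟨t, ht1, ht2, ht3⟩ := (h6.and (h7.and h8)).exists
  refine ⟨t, ht2, ht3, ?_⟩
  have hH : ∀ j : ℕ, H (h hη0) (r (y η j) * t) = F η (r (y η j) * t) / (r (y η j) * t) := by
    intro j
    have hr := r_pos (y_pos hη0 j)
    have hr' := r_lt (y η j)
    refine H_h hη0 ?_ ?_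
    · rw [← Complex.ofReal_mul, Complex.norm_real, Real.norm_of_nonneg (by positivity)]
      nlinarith
    · rw [← Complex.ofReal_mul]
      exact_mod_cast (mul_pos hr ht2).ne'
  simp only [hH]
  exact ht1


/-! ### The norm of the kernel -/

/-- `δ/(1 - r w)` -/
noncomputable def q (y : ℝ) (w : ℂ) : ℂ := (δ y : ℂ) / (1 - r y * w)

/-- `|u|/(δ + |u|)` -/
noncomputable def T (y : ℝ) (w : ℂ) : ℝ := ‖1 - w‖ / (δ y + ‖1 - w‖)

lemma den_ge {w : ℂ} (hw : ‖w‖ < 1) {y : ℝ} (hy : 0 < y) : δ y ≤ ‖1 - r y * w‖ := by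
  have hr := r_pos hy
  have h1 := norm_sub_norm_le (1 : ℂ) (r y * w)
  rw [norm_one, norm_mul, Complex.norm_real, Real.norm_of_nonneg hr.le] at h1
  have h2 := one_sub_r y
  nlinarith

lemma den_ge' {w : ℂ} (hw : ‖w‖ < 1) {y : ℝ} (hy : 0 < y) :
    δ y + ‖1 - w‖ ≤ 3 * ‖1 - r y * w‖ := by
  have h1 := den_ge hw hy
  have h2 : ‖1 - w‖ ≤ ‖1 - r y * w‖ + δ y := by
    have h3 : 1 - w = (1 - r y * w) + (-(δ y) * w) := by
      rw [← one_sub_r y]; push_cast; ring
    rw [h3]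
    refine (norm_add_le _ _).trans ?_
    have h4 : ‖-(δ y : ℂ) * w‖ ≤ δ y := by
      rw [norm_mul, norm_neg, Complex.norm_real, Real.norm_of_nonneg (δ_pos y).le]
      have := δ_pos y
      nlinarith
    linarith
  linarith

lemma q_norm {w : ℂ} (hw : ‖w‖ < 1) {y : ℝ} (hy : 0 < y) : ‖q y w‖ ≤ 1 := by
  unfold q
  rw [norm_div, Complex.norm_real, Real.norm_of_nonneg (δ_pos y).le]
  have h1 := den_ge hw hy
  have h2 := δ_pos y
  rw [div_le_one (by linarith)]
  exact h1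

lemma q_sub {w : ℂ} (hw : ‖w‖ < 1) {y y' : ℝ} (hy : 0 < y) (hyy : y ≤ y') :
    ‖q y w - q y' w‖ ≤ 9 * (T y' w - T y w) := by
  have hy' : 0 < y' := by linarith
  have hδ := δ_pos y
  have hδ' := δ_pos y'
  have hδδ : δ y' ≤ δ y := by
    unfold δ
    have := Real.exp_pos y
    have := Real.exp_le_exp.2 hyy
    gcongr
  have h1 := den_ge hw hy
  have h1' := den_ge hw hy'
  have h2 := den_ge' hw hy
  have h2' := den_ge' hw hy'
  have hu : 0 < ‖1 - w‖ := norm_pos_iff.2 (one_sub_ne hw)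
  have n1 : (1 : ℂ) - r y * w ≠ 0 := norm_pos_iff.1 (by linarith)
  have n2 : (1 : ℂ) - r y' * w ≠ 0 := norm_pos_iff.1 (by linarith)
  have hrδ : ((r y : ℝ) : ℂ) = 1 - δ y := by rw [← one_sub_r y]; push_cast; ring
  have hrδ' : ((r y' : ℝ) : ℂ) = 1 - δ y' := by rw [← one_sub_r y']; push_cast; ring
  have e1 : q y w - q y' w = ((δ y - δ y' : ℝ) : ℂ) * (1 - w) /
      ((1 - r y * w) * (1 - r y' * w)) := by
    unfold q
    rw [div_sub_div _ _ n1 n2]
    congr 1
    rw [hrδ, hrδ']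
    push_cast
    ring
  have e2 : T y' w - T y w = (δ y - δ y') * ‖1 - w‖ / ((δ y + ‖1 - w‖) * (δ y' + ‖1 - w‖)) := by
    unfold T
    have m1 : δ y + ‖1 - w‖ ≠ 0 := by positivity
    have m2 : δ y' + ‖1 - w‖ ≠ 0 := by positivity
    field_simp
    ring
  rw [e1, e2, norm_div, norm_mul, norm_mul, Complex.norm_real,
    Real.norm_of_nonneg (by linarith : 0 ≤ δ y - δ y')]
  have h3 : (δ y + ‖1 - w‖) * (δ y' + ‖1 - w‖) ≤
      (3 * ‖1 - r y * w‖) * (3 * ‖1 - r y' * w‖) := by gcongr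
  rw [div_le_iff₀ (by positivity), mul_assoc, div_mul_eq_mul_div, mul_div_assoc', le_div_iff₀ (by positivity)]
  have h4 : 0 ≤ (δ y - δ y') * ‖1 - w‖ := mul_nonneg (by linarith) hu.le
  nlinarith

lemma T_le_one (y : ℝ) (w : ℂ) : T y w ≤ 1 := by
  unfold T
  have := δ_pos y
  have := norm_nonneg (1 - w)
  rw [div_le_one (by positivity)]
  linarith

lemma T_nonneg (y : ℝ) (w : ℂ) : 0 ≤ T y w := by
  unfold T
  have := δ_pos y
  positivity

lemma y_mono (h0 : 0 < η) (j : ℕ) : y η j ≤ y η (j + 1) := by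
  unfold y
  have := Real.pi_pos
  push_cast
  gcongr
  linarith

lemma sq_sub_bound {w : ℂ} (hw : ‖w‖ < 1) {y y' : ℝ} (hy : 0 < y) (hyy : y ≤ y') :
    ‖q y w ^ 2 - q y' w ^ 2‖ ≤ 18 * (T y' w - T y w) := by
  have h1 := q_sub hw hy hyy
  have h2 := q_norm hw hy
  have h3 := q_norm hw (show 0 < y' by linarith)
  have h4 : q y w ^ 2 - q y' w ^ 2 = (q y w - q y' w) * (q y w + q y' w) := by ring
  have h5 : ‖q y w + q y' w‖ ≤ 2 := (norm_add_le _ _).trans (by linarith)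
  rw [h4, norm_mul]
  have h6 := norm_nonneg (q y w - q y' w)
  calc ‖q y w - q y' w‖ * ‖q y w + q y' w‖ ≤ ‖q y w - q y' w‖ * 2 := by gcongr
    _ ≤ _ := by linarith

lemma sum_q (h0 : 0 < η) {w : ℂ} (hw : ‖w‖ < 1) (N : ℕ) :
    ‖∑ j ∈ Finset.range (2 * N), (-1 : ℂ) ^ j * q (y η j) w ^ 2‖ ≤ 18 * T (y η (2 * N)) w := by
  induction N with
  | zero =>
    simp only [mul_zero, Finset.range_zero, Finset.sum_empty, norm_zero]
    have := T_nonneg (y η 0) w
    linarith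
  | succ N ih =>
    have e1 : 2 * (N + 1) = 2 * N + 1 + 1 := by ring
    rw [e1, Finset.sum_range_succ, Finset.sum_range_succ]
    have e2 : (-1 : ℂ) ^ (2 * N) = 1 := by rw [pow_mul]; simp
    have e3 : (-1 : ℂ) ^ (2 * N + 1) = -1 := by rw [pow_succ, e2]; ring
    rw [e2, e3, add_assoc]
    refine (norm_add_le _ _).trans ?_
    have h1 := sq_sub_bound hw (y_pos h0 (2 * N)) (y_mono h0 (2 * N))
    have h2 : (1 : ℂ) * q (y η (2 * N)) w ^ 2 + -1 * q (y η (2 * N + 1)) w ^ 2 =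
      q (y η (2 * N)) w ^ 2 - q (y η (2 * N + 1)) w ^ 2 := by ring
    rw [h2]
    have h3 : T (y η (2 * N + 1)) w ≤ T (y η (2 * N + 1 + 1)) w := by
      have := q_sub hw (y_pos h0 (2 * N + 1)) (y_mono h0 (2 * N + 1))
      have := norm_nonneg (q (y η (2 * N + 1)) w - q (y η (2 * N + 1 + 1)) w)
      linarith
    linarith

/-- `k(z)/z` -/
noncomputable def m (η : ℝ) (N : ℕ) (κ e z : ℂ) : ℂ :=
  κ * ∑ j ∈ Finset.range (2 * N), wt η j * (1 / (1 - r (y η j) * e * z) - 1)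

/-- `k'(z)` -/
noncomputable def k' (η : ℝ) (N : ℕ) (κ e z : ℂ) : ℂ :=
  κ * ∑ j ∈ Finset.range (2 * N), wt η j * (1 / (1 - r (y η j) * e * z) ^ 2 - 1)

lemma m_zero (η : ℝ) (N : ℕ) (κ e : ℂ) : m η N κ e 0 = 0 := by
  unfold m
  simp

lemma den_ne {e z : ℂ} (he : ‖e‖ = 1) (hz : ‖z‖ < 1) {y : ℝ} (hy : 0 < y) :
    1 - (r y : ℂ) * e * z ≠ 0 := by
  have hw : ‖e * z‖ < 1 := by rw [norm_mul, he, one_mul]; exact hz
  have h1 := den_ge hw hy
  have h2 := δ_pos y
  rw [mul_assoc]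
  exact norm_pos_iff.1 (by linarith)

lemma k'_bound (h0 : 0 < η) (h1 : η ≤ 1) (N : ℕ) (κ : ℂ) {e z : ℂ} (he : ‖e‖ = 1) (hz : ‖z‖ < 1) :
    ‖k' η N κ e z‖ ≤ ‖κ‖ * 19 := by
  have hw : ‖e * z‖ < 1 := by rw [norm_mul, he, one_mul]; exact hz
  unfold k'
  rw [norm_mul]
  refine mul_le_mul_of_nonneg_left ?_ (norm_nonneg κ)
  have e1 : ∑ j ∈ Finset.range (2 * N), wt η j * (1 / (1 - r (y η j) * e * z) ^ 2 - 1) =
      ∑ j ∈ Finset.range (2 * N), (-1 : ℂ) ^ j * q (y η j) (e * z) ^ 2 -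
      ∑ j ∈ Finset.range (2 * N), wt η j := by
    rw [← Finset.sum_sub_distrib]
    refine Finset.sum_congr rfl fun j _ => ?_
    unfold wt q
    rw [div_pow, mul_assoc (r (y η j) : ℂ) e z]
    ring
  rw [e1]
  refine (norm_sub_le _ _).trans ?_
  have h2 := sum_q h0 hw N
  have h3 := T_le_one (y η (2 * N)) (e * z)
  have h4 : ‖∑ j ∈ Finset.range (2 * N), wt η j‖ ≤ 1 := by
    refine (norm_sum_le _ _).trans ?_
    simp only [norm_wt]
    exact sum_δ_sq_le h0 h1 _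
  linarith

lemma m_bound (h0 : 0 < η) (h1 : η ≤ 1) (N : ℕ) (κ : ℂ) {e z : ℂ} (he : ‖e‖ = 1) (hz : ‖z‖ < 1) :
    ‖m η N κ e z‖ ≤ ‖κ‖ * 2 := by
  have hw : ‖e * z‖ < 1 := by rw [norm_mul, he, one_mul]; exact hz
  unfold m
  rw [norm_mul]
  refine mul_le_mul_of_nonneg_left ?_ (norm_nonneg κ)
  refine (norm_sum_le _ _).trans ?_
  calc ∑ j ∈ Finset.range (2 * N), ‖wt η j * (1 / (1 - r (y η j) * e * z) - 1)‖
      ≤ ∑ j ∈ Finset.range (2 * N), (δ (y η j) + δ (y η j) ^ 2) := by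
        refine Finset.sum_le_sum fun j _ => ?_
        rw [norm_mul, norm_wt]
        have hδ := δ_pos (y η j)
        have h2 := den_ge hw (y_pos h0 j)
        have h3 : ‖1 / (1 - (r (y η j) : ℂ) * e * z) - 1‖ ≤ 1 / δ (y η j) + 1 := by
          refine (norm_sub_le _ _).trans ?_
          rw [norm_one, norm_div, norm_one, mul_assoc]
          gcongr
        calc δ (y η j) ^ 2 * ‖1 / (1 - (r (y η j) : ℂ) * e * z) - 1‖
            ≤ δ (y η j) ^ 2 * (1 / δ (y η j) + 1) := by gcongr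
          _ = δ (y η j) + δ (y η j) ^ 2 := by field_simp
    _ = ∑ j ∈ Finset.range (2 * N), δ (y η j) + ∑ j ∈ Finset.range (2 * N), δ (y η j) ^ 2 :=
        Finset.sum_add_distrib
    _ ≤ 1 + 1 := add_le_add (sum_δ_le h0 h1 _) (sum_δ_sq_le h0 h1 _)
    _ = 2 := by norm_num

lemma m_hasDerivAt (h0 : 0 < η) (N : ℕ) (κ : ℂ) {e z : ℂ} (he : ‖e‖ = 1) (hz : ‖z‖ < 1) :
    HasDerivAt (fun z => z * m η N κ e z) (k' η N κ e z) z := by
  have e1 : (fun z => z * m η N κ e z) = fun z => κ * ∑ j ∈ Finset.range (2 * N),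
      wt η j * (z / (1 - r (y η j) * e * z) - z) := by
    funext z
    unfold m
    rw [Finset.mul_sum, Finset.mul_sum, Finset.mul_sum]
    refine Finset.sum_congr rfl fun j _ => ?_
    ring
  rw [e1]
  unfold k'
  refine HasDerivAt.const_mul κ ?_
  refine HasDerivAt.fun_sum fun j _ => ?_
  refine HasDerivAt.const_mul _ ?_
  have hd := den_ne he hz (y_pos h0 j)
  have h1 : HasDerivAt (fun z : ℂ => 1 - (r (y η j) : ℂ) * e * z) (-((r (y η j) : ℂ) * e * 1)) z :=
    ((hasDerivAt_id z).const_mul _).const_sub 1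
  have h2 := ((hasDerivAt_id z).div h1 hd).sub (hasDerivAt_id z)
  refine HasDerivAt.congr_deriv (f := fun z : ℂ => z / (1 - (r (y η j) : ℂ) * e * z) - z) h2 ?_
  simp only [id_eq]
  congr 2
  ring

/-! ### The function `g` -/

/-- the (shifted) coefficients of `g` -/
noncomputable def gc (η : ℝ) (N : ℕ) (f : ClassA) (κ e : ℂ) (n : ℕ) : ℂ :=
  f.coeff (n + 1) + κ * ∑ j ∈ Finset.range (2 * N),
    wt η j * ((r (y η j) * e) ^ n - if n = 0 then 1 else 0)

lemma gc_zero (N : ℕ) (f : ClassA) (κ e : ℂ) : gc η N f κ e 0 = 1 := by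
  unfold gc
  simp [f.coeff_one]

lemma hasSum_gc (h0 : 0 < η) (N : ℕ) (f a : ClassA) (κ : ℂ) {e z : ℂ} (he : ‖e‖ = 1) (hz : ‖z‖ < 1) :
    HasSum (fun n => gc η N f κ e n * a.coeff (n + 1) * z ^ n)
      (Ψ f a z + κ * ∑ j ∈ Finset.range (2 * N), wt η j * (H a (r (y η j) * e * z) - 1)) := by
  have h1 := hasSum_Ψ f a hz
  have h2 : ∀ j, HasSum (fun n => a.coeff (n + 1) * (r (y η j) * e * z) ^ n)
      (H a (r (y η j) * e * z)) := by
    intro j
    refine hasSum_H a ?_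
    rw [norm_mul, norm_mul, he, mul_one, Complex.norm_real, Real.norm_of_nonneg (r_pos (y_pos h0 j)).le]
    have := r_lt (y η j)
    have := r_pos (y_pos h0 j)
    have := norm_nonneg z
    nlinarith
  have h3 : HasSum (fun n : ℕ => if n = 0 then (1 : ℂ) else 0) 1 := hasSum_ite_eq 0 1
  have h4 := (hasSum_sum fun j (_ : j ∈ Finset.range (2 * N)) =>
    ((h2 j).sub h3).mul_left (wt η j)).mul_left κ
  have h5 := h1.add h4
  refine h5.congr_fun fun n => ?_
  unfold gc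
  rw [add_mul, add_mul, mul_assoc κ, mul_assoc κ, Finset.sum_mul, Finset.sum_mul]
  congr 2
  refine Finset.sum_congr rfl fun j _ => ?_
  by_cases hn : n = 0
  · simp [hn, a.coeff_one]
  · simp only [if_neg hn]
    rw [mul_pow (_ * e)]
    ring


lemma geom {u : ℂ} (hu : ‖u‖ < 1) : HasSum (fun n : ℕ => (1 : ℂ) * u ^ n) (1 / (1 - u)) := by
  have := hasSum_geometric_of_norm_lt_one hu
  rw [← one_div] at this
  simpa using this

/-- `z/(1-z)` -/
noncomputable def half : ClassA := ofShift (fun _ => 1) rfl fun _ hz => (geom hz).summable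

lemma H_half {u : ℂ} (hu : ‖u‖ < 1) : H half u = 1 / (1 - u) := (geom hu).tsum_eq

lemma hasSum_gc' (h0 : 0 < η) (N : ℕ) (f : ClassA) (κ : ℂ) {e z : ℂ} (he : ‖e‖ = 1) (hz : ‖z‖ < 1) :
    HasSum (fun n => gc η N f κ e n * z ^ n) (H f z + m η N κ e z) := by
  have h1 := hasSum_gc h0 N f half κ he hz
  have h2 : Ψ f half z = H f z := by
    unfold Ψ H
    refine tsum_congr fun n => ?_
    show f.coeff (n + 1) * 1 * z ^ n = _
    ring
  have h3 : κ * ∑ j ∈ Finset.range (2 * N), wt η j * (H half (r (y η j) * e * z) - 1) =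
      m η N κ e z := by
    unfold m
    congr 1
    refine Finset.sum_congr rfl fun j _ => ?_
    rw [H_half]
    rw [norm_mul, norm_mul, he, mul_one, Complex.norm_real, Real.norm_of_nonneg (r_pos (y_pos h0 j)).le]
    have := r_lt (y η j)
    have := r_pos (y_pos h0 j)
    have := norm_nonneg z
    nlinarith
  rw [h2, h3] at h1
  refine h1.congr_fun fun n => ?_
  show gc η N f κ e n * z ^ n = gc η N f κ e n * 1 * z ^ n
  ring

lemma conv_gc (h0 : 0 < η) (N : ℕ) (f : ClassA) (κ : ℂ) {e : ℂ} (he : ‖e‖ = 1) :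
    Conv (gc η N f κ e) := fun _ hz => (hasSum_gc' h0 N f κ he hz).summable

/-- the function `g = f + k` -/
noncomputable def g (h0 : 0 < η) (N : ℕ) (f : ClassA) (κ : ℂ) {e : ℂ} (he : ‖e‖ = 1) : ClassA :=
  ofShift (gc η N f κ e) (gc_zero N f κ e) (conv_gc h0 N f κ he)

lemma g_eval (h0 : 0 < η) (N : ℕ) (f : ClassA) (κ : ℂ) {e z : ℂ} (he : ‖e‖ = 1) (hz : ‖z‖ < 1) :
    (g h0 N f κ he).eval z = f.eval z + z * m η N κ e z := by
  unfold g
  rw [eval_ofShift _ _ _ hz (hasSum_gc' h0 N f κ he hz), mul_add, mul_H f hz]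

lemma g_mem (h0 : 0 < η) (h1 : η ≤ 1) (N : ℕ) (f : ClassA) {κ : ℂ} {e : ℂ} (he : ‖e‖ = 1) {d : ℝ}
    (hκ : 21 * ‖κ‖ < d) : g h0 N f κ he ∈ sigmaNbhd d f := by
  intro z hz
  have hev : (g h0 N f κ he).eval =ᶠ[𝓝 z] fun z => f.eval z + z * m η N κ e z := by
    have : ball (0 : ℂ) 1 ∈ 𝓝 z := isOpen_ball.mem_nhds (by simpa using hz)
    filter_upwards [this] with w hw
    exact g_eval h0 N f κ he (by simpa using hw)
  have hd : deriv (g h0 N f κ he).eval z = deriv f.eval z + k' η N κ e z := by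
    rw [hev.deriv_eq]
    exact ((eval_diff f hz).hasDerivAt.add (m_hasDerivAt h0 N κ he hz)).deriv
  have e1 : deriv (g h0 N f κ he).eval z - deriv f.eval z = k' η N κ e z := by rw [hd]; ring
  have e2 : ((g h0 N f κ he).eval z - f.eval z) / z = m η N κ e z := by
    rw [g_eval h0 N f κ he hz]
    by_cases hz0 : z = 0
    · rw [hz0, div_zero, m_zero]
    · field_simp
      ring
  rw [e1, e2]
  have h2 := k'_bound h0 h1 N κ he hz
  have h3 := m_bound h0 h1 N κ he hz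
  have h4 := norm_sub_le (k' η N κ e z) (m η N κ e z)
  have h5 := norm_add_le (k' η N κ e z) (m η N κ e z)
  linarith

/-- The dual of `S` contains no neighbourhood `Σ_δ(f)`. -/
theorem main (f : ClassA) {d : ℝ} (hd : 0 < d) : ¬ sigmaNbhd d f ⊆ dual classS := by
  intro hsub
  have hf : f ∈ sigmaNbhd d f := by
    intro z _
    simp only [sub_self, zero_div, add_zero, norm_zero]
    linarith
  obtain ⟨η, N, h0, h1, t, ht0, ht1, hK⟩ := exists_t (21 / d)
  have hh := h_mem h0 h1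
  have hne : ∀ z : ℂ, ‖z‖ < 1 → Ψ f (h h0) z ≠ 0 := by
    intro z hz
    by_cases hz0 : z = 0
    · rw [hz0, Ψ_zero]; exact one_ne_zero
    · intro h2
      refine hsub hf _ hh z (norm_pos_iff.2 hz0) hz ?_
      rw [hadamard_eq _ _ _ _ (hasSum_Ψ f (h h0) hz), h2, mul_zero]
  obtain ⟨z, hz1, hz2⟩ := min_principle (fun z hz => Ψ_diff f (h h0) hz) (Ψ_zero f (h h0)) hne ht0 ht1
  have hz : ‖z‖ < 1 := by rw [hz1]; exact ht1
  have hz0 : z ≠ 0 := norm_pos_iff.1 (by rw [hz1]; exact ht0)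
  set e : ℂ := t / z with he'
  have he : ‖e‖ = 1 := by
    rw [he', norm_div, Complex.norm_real, Real.norm_of_nonneg ht0.le, hz1, div_self ht0.ne']
  have hez : e * z = t := by rw [he']; field_simp
  set L : ℂ := ∑ j ∈ Finset.range (2 * N), wt η j * (H (h h0) (r (y η j) * t) - 1) with hL
  have hLpos : 0 < ‖L‖ := lt_trans (by positivity) hK
  have hL0 : L ≠ 0 := norm_pos_iff.1 hLpos
  set κ : ℂ := -(Ψ f (h h0) z) / L with hκ
  have hκn : 21 * ‖κ‖ < d := by
    rw [hκ, norm_div, norm_neg]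
    rw [div_lt_iff₀ hd] at hK
    have h2 : 21 * (‖Ψ f (h h0) z‖ / ‖L‖) ≤ 21 * (1 / ‖L‖) := by gcongr
    refine h2.trans_lt ?_
    rw [mul_one_div, div_lt_iff₀ hLpos]
    linarith
  refine hsub (g_mem h0 h1 N f he hκn) _ hh z (norm_pos_iff.2 hz0) hz ?_
  have h3 : HasSum (fun n => (g h0 N f κ he).coeff (n + 1) * (h h0).coeff (n + 1) * z ^ n)
      (Ψ f (h h0) z + κ * ∑ j ∈ Finset.range (2 * N), wt η j * (H (h h0) (r (y η j) * e * z) - 1)) :=
    hasSum_gc h0 N f (h h0) κ he hz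
  rw [hadamard_eq _ _ _ _ h3]
  have h4 : ∑ j ∈ Finset.range (2 * N), wt η j * (H (h h0) (r (y η j) * e * z) - 1) = L := by
    rw [hL]
    refine Finset.sum_congr rfl fun j _ => ?_
    rw [mul_assoc (r (y η j) : ℂ) e z, hez]
  rw [h4, hκ]
  field_simp
  ring

/-- **MP_061dbe_an, Q1.** For no function `f ∈ A` and no `δ > 0` is `Σ_δ(f)` contained in the dual `S*` of
the class `S`. In particular, for all `x, ρ` with `|x| ≤ ρ ≤ 1` and `γ = 1/(1+ρ)²` the neighbourhood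
`Σ_γ(z/(1-xz))` is not contained in `S*`: it contains a `g` for which there are `h ∈ S` and
`0 < |z₀| < 1` with `(g * h)(z₀) = 0`. (The function `z/(1-xz)` is in the class `A`.) -/
theorem result :
    (∀ (f : ClassA) (δ : ℝ), 0 < δ → ¬ sigmaNbhd δ f ⊆ dual classS) ∧
    (∀ (x : ℂ) (ρ : ℝ), ‖x‖ ≤ ρ → ρ ≤ 1 →
      ∃ f : ClassA, (∀ z : ℂ, ‖z‖ < 1 → f.eval z = z / (1 - x * z)) ∧
        ∃ g ∈ sigmaNbhd (1 / (1 + ρ) ^ 2) f, ∃ h ∈ classS, ∃ z₀ : ℂ,
          0 < ‖z₀‖ ∧ ‖z₀‖ < 1 ∧ hadamard g h z₀ = 0) := by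
  refine ⟨fun f δ hδ => main f hδ, fun x ρ hx hρ => ?_⟩
  have hx1 : ‖x‖ ≤ 1 := hx.trans hρ
  have hρ0 : 0 ≤ ρ := (norm_nonneg x).trans hx
  have hgeo : ∀ z : ℂ, ‖z‖ < 1 → HasSum (fun n : ℕ => x ^ n * z ^ n) (1 / (1 - x * z)) := by
    intro z hz
    have h1 : ‖x * z‖ < 1 := by
      rw [norm_mul]
      have := norm_nonneg x
      have := norm_nonneg z
      nlinarith
    refine (geom h1).congr_fun fun n => ?_
    rw [one_mul, mul_pow]
  have hconv : Conv fun n => x ^ n := fun z hz => (hgeo z hz).summable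
  refine ⟨ofShift (fun n => x ^ n) (pow_zero x) hconv, fun z hz => ?_, ?_⟩
  · rw [eval_ofShift _ _ _ hz (hgeo z hz)]
    ring
  · have hm := main (ofShift (fun n => x ^ n) (pow_zero x) hconv)
      (d := 1 / (1 + ρ) ^ 2) (by positivity)
    rw [Set.not_subset] at hm
    obtain ⟨g, hg, hg'⟩ := hm
    simp only [dual, Set.mem_ofPred_eq] at hg'
    push Not at hg'
    obtain ⟨h, hh, z, hz0, hz1, hz2⟩ := hg'
    exact ⟨g, hg, h, hh, z, hz0, hz1, hz2⟩

end Pool.Agent.Results.MP_061dbe_an.NoSigmaNeighbourhood
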